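import Pool.Agent.W2helper92.CS.Stm

/-!
# Project GC: the limits of the slopes (after `Pool.TH330.CS`)
-/

set_option autoImplicit false

open Finset Filter Topology

namespace Pool.Agent.W2helper98.CS

/-- the limit slope -/
noncomputable def phi (b : ℝ) : ℝ := (84 + 576 * b + 612 * b ^ 2) / (9 * (2 + 6 * b) ^ 2)

lemma tend (l₁ l₂ m₁ m₂ k₁ k₂ b : ℝ) (hb : 0 < b) :
    Tendsto (fun n : ℕ => ((21 * (2 * (n : ℝ)) ^ 2 + 48 * (2 * n) * (6 * (⌊b * n⌋₊ : ℝ)) +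
      17 * (6 * (⌊b * n⌋₊ : ℝ)) ^ 2 + l₁ * n + m₁ * (⌊b * n⌋₊ : ℝ) + k₁) /
      (9 * (2 * n + 6 * (⌊b * n⌋₊ : ℝ)) ^ 2 + l₂ * n + m₂ * (⌊b * n⌋₊ : ℝ) + k₂)))
      atTop (𝓝 (phi b)) := by
  have h1 : Tendsto (fun n : ℕ => (⌊b * n⌋₊ : ℝ) / n) atTop (𝓝 b) :=
    (tendsto_nat_floor_mul_div_atTop hb.le).comp tendsto_natCast_atTop_atTop
  have h2 : Tendsto (fun n : ℕ => (1 : ℝ) / n) atTop (𝓝 0) := tendsto_one_div_atTop_nhds_zero_nat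
  have hnum : Tendsto (fun n : ℕ => 84 + 576 * ((⌊b * n⌋₊ : ℝ) / n) +
      612 * ((⌊b * n⌋₊ : ℝ) / n) ^ 2 + l₁ * ((1 : ℝ) / n) +
      m₁ * ((⌊b * n⌋₊ : ℝ) / n) * ((1 : ℝ) / n) + k₁ * ((1 : ℝ) / n) ^ 2) atTop
      (𝓝 (84 + 576 * b + 612 * b ^ 2 + l₁ * 0 + m₁ * b * 0 + k₁ * 0 ^ 2)) := by
    exact (((((tendsto_const_nhds.add (h1.const_mul 576)).add ((h1.pow 2).const_mul 612)).add
      (h2.const_mul l₁)).add ((h1.const_mul m₁).mul h2)).add ((h2.pow 2).const_mul k₁))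
  have hden : Tendsto (fun n : ℕ => 9 * (2 + 6 * ((⌊b * n⌋₊ : ℝ) / n)) ^ 2 +
      l₂ * ((1 : ℝ) / n) + m₂ * ((⌊b * n⌋₊ : ℝ) / n) * ((1 : ℝ) / n) +
      k₂ * ((1 : ℝ) / n) ^ 2) atTop
      (𝓝 (9 * (2 + 6 * b) ^ 2 + l₂ * 0 + m₂ * b * 0 + k₂ * 0 ^ 2)) := by
    exact ((((tendsto_const_nhds.add (h1.const_mul 6)).pow 2).const_mul 9).add
      (h2.const_mul l₂)).add ((h1.const_mul m₂).mul h2) |>.add ((h2.pow 2).const_mul k₂)
  have hd0 : (9 * (2 + 6 * b) ^ 2 + l₂ * 0 + m₂ * b * 0 + k₂ * 0 ^ 2 : ℝ) ≠ 0 := by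
    have : 0 < (2 + 6 * b) ^ 2 := by positivity
    nlinarith
  have h := hnum.div hden hd0
  have e : (84 + 576 * b + 612 * b ^ 2 + l₁ * 0 + m₁ * b * 0 + k₁ * 0 ^ 2 : ℝ) /
      (9 * (2 + 6 * b) ^ 2 + l₂ * 0 + m₂ * b * 0 + k₂ * 0 ^ 2) = phi b := by
    unfold phi
    congr 1 <;> ring
  rw [e] at h
  refine h.congr' ?_
  filter_upwards [eventually_gt_atTop 0] with n hn
  have hn' : (n : ℝ) ≠ 0 := by positivity
  rw [Pi.div_apply]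
  rw [← mul_div_mul_left _ _ (pow_ne_zero 2 hn')]
  congr 1 <;> field_simp <;> ring

section

variable {S : Set ℝ} {l₁ l₂ m₁ m₂ k₁ k₂ : ℝ}
  (hS : ∀ a b : ℕ, 1 ≤ b → 6 * b ≤ 2 * a →
    (21 * (2 * (a : ℝ)) ^ 2 + 48 * (2 * a) * (6 * b) + 17 * (6 * b) ^ 2 + l₁ * a + m₁ * b + k₁) /
      (9 * (2 * a + 6 * b) ^ 2 + l₂ * a + m₂ * b + k₂) ∈ S)

include hS in
lemma mem_closure_aux (b : ℝ) (hb : 0 < b) (hb1 : b ≤ 1 / 7) (ε : ℝ) (hε : 0 < ε) :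
    ∃ s ∈ S, |s - phi b| < ε := by
  have h := tend l₁ l₂ m₁ m₂ k₁ k₂ b hb
  rw [Metric.tendsto_atTop] at h
  obtain ⟨N, hN⟩ := h ε hε
  obtain ⟨M, hM⟩ := exists_nat_gt (1 / b)
  set n := max N M with hn
  have hnM : (M : ℝ) ≤ n := by exact_mod_cast le_max_right N M
  have hbn : 1 ≤ b * n := by
    have : 1 / b < n := lt_of_lt_of_le hM hnM
    rw [div_lt_iff₀ hb] at this
    linarith
  have hB : 1 ≤ ⌊b * n⌋₊ := by
    rw [Nat.one_le_floor_iff]; exact hbn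
  have hBA : 6 * ⌊b * n⌋₊ ≤ 2 * n := by
    have h1 : (⌊b * n⌋₊ : ℝ) ≤ b * n := Nat.floor_le (by positivity)
    have h2 : (0 : ℝ) ≤ n := by positivity
    have h3 : (6 * ⌊b * n⌋₊ : ℝ) ≤ 2 * n := by nlinarith
    exact_mod_cast h3
  refine ⟨_, hS n ⌊b * n⌋₊ hB hBA, ?_⟩
  have := hN n (le_max_left N M)
  rw [Real.dist_eq] at this
  exact this

end

lemma phi_surj (r : ℝ) (h1 : 7 / 3 < r) (h2 : r ≤ 73 / 30) :
    ∃ b : ℝ, 0 < b ∧ b ≤ 1 / 7 ∧ phi b = r := by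
  have hc : ContinuousOn phi (Set.Icc (0 : ℝ) (1 / 7)) := by
    unfold phi
    refine ContinuousOn.div (by fun_prop) (by fun_prop) ?_
    intro x hx
    have : 0 < (2 + 6 * x) ^ 2 := by have := hx.1; positivity
    positivity
  have h0 : phi 0 = 7 / 3 := by unfold phi; norm_num
  have h3 : phi (1 / 7) = 73 / 30 := by unfold phi; norm_num
  have := intermediate_value_Icc (by norm_num : (0 : ℝ) ≤ 1 / 7) hc
  rw [h0, h3] at this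
  obtain ⟨b, hb, e⟩ := this ⟨h1.le, h2⟩
  refine ⟨b, ?_, hb.2, e⟩
  rcases hb.1.eq_or_lt with h | h
  · rw [← h, h0] at e; linarith
  · exact h

theorem p_lim : Pool.Agent.W2helper92.CS.P_LIM := by
  intro S l₁ l₂ m₁ m₂ k₁ k₂ hS r hr
  rw [mem_derivedSet, accPt_iff_nhds]
  intro U hU
  obtain ⟨ε, hε, hU'⟩ := Metric.mem_nhds_iff.1 hU
  -- a value r' near r, different from r
  obtain ⟨r', h1, h2, h3, h4⟩ : ∃ r' : ℝ, 7 / 3 < r' ∧ r' ≤ 73 / 30 ∧ r' ≠ r ∧ |r' - r| < ε / 2 := by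
    have hr1 := hr.1
    have hr2 := hr.2
    have h5 : 0 < min (ε / 4) ((r - 7 / 3) / 2) := by
      refine lt_min (by positivity) (by linarith)
    have h6 : min (ε / 4) ((r - 7 / 3) / 2) ≤ ε / 4 := min_le_left _ _
    have h7 : min (ε / 4) ((r - 7 / 3) / 2) ≤ (r - 7 / 3) / 2 := min_le_right _ _
    refine ⟨r - min (ε / 4) ((r - 7 / 3) / 2), by linarith, by linarith, by linarith, ?_⟩
    rw [sub_sub_cancel_left, abs_neg, abs_of_pos h5]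
    linarith
  obtain ⟨b, hb, hb1, e⟩ := phi_surj r' h1 h2
  have h5 : 0 < |r' - r| := abs_pos.2 (sub_ne_zero.2 h3)
  obtain ⟨s, hs, hs'⟩ := mem_closure_aux hS b hb hb1 (min (ε / 2) |r' - r|) (by positivity)
  rw [e] at hs'
  have h6 := lt_of_lt_of_le hs' (min_le_left _ _)
  have h7 := lt_of_lt_of_le hs' (min_le_right _ _)
  refine ⟨s, ⟨hU' ?_, hs⟩, ?_⟩
  · rw [Metric.mem_ball, Real.dist_eq]
    calc |s - r| = |(s - r') + (r' - r)| := by ring_nf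
      _ ≤ |s - r'| + |r' - r| := abs_add_le _ _
      _ < ε := by linarith
  · rintro rfl
    rw [abs_sub_comm] at h7
    exact lt_irrefl _ h7

end Pool.Agent.W2helper98.CS
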